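import Pool.Agent.Lib.MP_6b8fc7_nt.CD.Main
import Pool.Agent.Lib.MP_6b8fc7_nt.CS.Transfer

set_option autoImplicit false

/-!
Almost all `n` (with no local obstruction) are `p + 2 (d q) ^ 2` with `p`, `q` primes and all
`p + h_i`, `q + h'_j` almost primes; from the general theorem of `Lib/MP_0da313_nt/HC` (a
hypothesis here).
-/

namespace Pool.Agent.Lib.MP_6b8fc7_nt.CD

open Finset Polynomial Filter
open ArithmeticFunction (cardFactors)
open Pool.Agent.Lib.MP_0da313_nt (Admissible lineRestrict val singV nroots eval_lineRestrict)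

variable {K L : ℕ}

/-- no local obstruction -/
def Loc (d : ℕ) (h : Fin K → ℕ) (h' : Fin L → ℕ) (n : ℕ) : Prop :=
  ∀ p : ℕ, p.Prime → p ≤ 2 * K + L + 3 + d → ∃ x : ℤ, ¬ (p : ℤ) ∣ Q d h h' n x

/-- the primes `q` with `n - 2 (d q) ^ 2` prime and all shifts almost prime -/
def Good (d B : ℕ) (h : Fin K → ℕ) (h' : Fin L → ℕ) (n : ℕ) : Set ℕ :=
  {q : ℕ | q.Prime ∧ 2 * (d * q) ^ 2 ≤ n ∧ (n - 2 * (d * q) ^ 2).Prime ∧
    (∀ i, cardFactors (n - 2 * (d * q) ^ 2 + h i) ≤ B ∧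
      ∀ p : ℕ, p.Prime → p ∣ n - 2 * (d * q) ^ 2 + h i → n < p ^ B) ∧
    ∀ j, cardFactors (q + h' j) ≤ B ∧ ∀ p : ℕ, p.Prime → p ∣ q + h' j → n < p ^ B}

lemma Good_finite {d : ℕ} (hd1 : 1 ≤ d) (B : ℕ) (h : Fin K → ℕ) (h' : Fin L → ℕ) (n : ℕ) :
    (Good d B h h' n).Finite := by
  apply (Set.finite_Iic n).subset
  intro q hq
  have h1 := hq.2.1
  have h2 := hq.1.one_lt
  rw [Set.mem_Iic]
  have h3 : q ≤ d * q := Nat.le_mul_of_pos_left q hd1
  nlinarith

lemma natDeg_g {d : ℕ} (hd1 : 1 ≤ d) (r : ℕ) :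
    (C (r : ℤ) - C (2 * (d : ℤ) ^ 2) * X ^ 2 : ℤ[X]).natDegree = 2 := by
  have hd0 : (2 * (d : ℤ) ^ 2) ≠ 0 := by positivity
  apply le_antisymm
  · compute_degree
  · apply le_natDegree_of_ne_zero
    simp only [coeff_sub, coeff_C_mul, coeff_X_pow, coeff_C]
    rw [if_neg (by norm_num), if_pos trivial, mul_one, zero_sub]
    exact neg_ne_zero.2 hd0

lemma fam_one (d M r : ℕ) (h : Fin K → ℕ) (h' : Fin L → ℕ) :
    fam d M r h h' (Fin.succ 0) = qf d M r := by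
  unfold fam
  rw [Fin.cons_succ, Fin.cons_zero]

lemma fam_q (d M r : ℕ) (h : Fin K → ℕ) (h' : Fin L → ℕ) (i : Fin K) :
    fam d M r h h' (Fin.succ (Fin.succ (Fin.castAdd L i))) = qf d M (r + h i) := by
  unfold fam
  rw [Fin.cons_succ, Fin.cons_succ, Fin.append_left]

lemma fam_l (d M r : ℕ) (h : Fin K → ℕ) (h' : Fin L → ℕ) (j : Fin L) :
    fam d M r h h' (Fin.succ (Fin.succ (Fin.natAdd K j))) = lf (h' j) := by
  unfold fam
  rw [Fin.cons_succ, Fin.cons_succ, Fin.append_right]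

lemma Q_congr_iff (d : ℕ) (h : Fin K → ℕ) (h' : Fin L → ℕ) {n n' : ℤ} {p : ℤ} (hn : p ∣ n - n') (x : ℤ) :
    p ∣ Q d h h' n x ↔ p ∣ Q d h h' n' x :=
  ⟨Q_congr d h h' hn x, Q_congr d h h' (by rw [← neg_sub]; exact (dvd_neg.2 hn)) x⟩

open Classical in
theorem main (hua : ∃ c0 : ℝ, 0 < c0 ∧ ∀ m D : ℕ, 1 ≤ m → 1 ≤ D → ∃ (B : ℕ) (c : ℝ), 0 < c ∧
  ∀ f : Fin m → MvPolynomial (Fin 2) ℤ, Admissible f → (∀ k, (f k).totalDegree ≤ D) →
  ∀ (d : ℕ) (I J : Finset (Fin m)), 2 ≤ d → I.Nonempty →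
  ∀ (a : Fin m → ℤ) (g : Fin m → ℤ[X]) (u v : Fin m → ℤ),
  (∀ k ∈ I, a k ≠ 0 ∧ (g k).natDegree = d ∧ f k = MvPolynomial.C (a k) *
    (MvPolynomial.X 0 + MvPolynomial.X 1) + aeval (MvPolynomial.X 0) (g k)) →
  (∀ k ∈ I, ∀ l ∈ I, k ≠ l → f k ≠ f l ∧ f k ≠ - f l) →
  (∀ k ∈ J, u k ≠ 0 ∧ f k = MvPolynomial.C (u k) * MvPolynomial.X 0 + MvPolynomial.C (v k)) →
  (∀ k ∈ J, ∀ l ∈ J, k ≠ l → f k ≠ f l ∧ f k ≠ - f l) →
  ∀ A : ℕ, ∀ᶠ N : ℕ in atTop, (((Icc 1 N).filter (fun n : ℕ =>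
    ¬ (c * ((n : ℝ) ^ (1 / (d : ℝ)) * singV f n) ≤
    (Set.ncard {x : ℕ | 0 < x ∧ x < n ∧ x ^ d ≤ n ∧
      (c0 * Real.log I.card ≤
          d * ((I.filter (fun k => (val (f k) x ((n : ℤ) - x)).natAbs.Prime)).card : ℝ) ∧
        1 ≤ (I.filter (fun k => (val (f k) x ((n : ℤ) - x)).natAbs.Prime)).card) ∧
      (J.Nonempty → c0 * Real.log J.card ≤
          ((J.filter (fun k => (val (f k) x ((n : ℤ) - x)).natAbs.Prime)).card : ℝ) ∧
        1 ≤ (J.filter (fun k => (val (f k) x ((n : ℤ) - x)).natAbs.Prime)).card) ∧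
      ∀ k, 1 < |val (f k) x ((n : ℤ) - x)| ∧
      (∀ p : ℕ, p.Prime → (p : ℤ) ∣ val (f k) x ((n : ℤ) - x) → n < p ^ B) ∧
      cardFactors (val (f k) x ((n : ℤ) - x)).natAbs ≤ B * D} : ℝ)))).card : ℝ) ≤
    N / (Real.log N) ^ A) {d : ℕ} (hd1 : 1 ≤ d) (K L : ℕ) :
  ∃ (B : ℕ) (c : ℝ), 0 < c ∧ ∀ (h : Fin K → ℕ) (h' : Fin L → ℕ) (A : ℕ),
    ∀ᶠ N : ℕ in atTop, (((Icc 1 N).filter (fun n : ℕ => Loc d h h' n ∧
      ¬ (c * (Real.sqrt n * sing d h h' n) ≤ (Set.ncard (Good d B h h' n) : ℝ)))).card : ℝ) ≤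
      N / (Real.log N) ^ A := by
  obtain ⟨c0, hc0, H⟩ := hua
  obtain ⟨B, c, hc, H⟩ := H (K + L + 1 + 1) 2 (by omega) (by norm_num)
  obtain ⟨M, hMd⟩ : ∃ M : ℕ, M = (2 * K + L + 3 + d).factorial * (2 * d ^ 2) := ⟨_, rfl⟩
  have hM1 : 1 ≤ M := by rw [hMd]; exact Nat.mul_pos (Nat.factorial_pos _) (by positivity)
  have hMdd : 2 * d ^ 2 ≤ M := by
    rw [hMd]
    exact Nat.le_mul_of_pos_left _ (Nat.factorial_pos _)
  have hM0 : (0 : ℝ) < M := by exact_mod_cast hM1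
  have hMp : ∀ p : ℕ, p.Prime → p ≤ 2 * K + L + 3 + d → p ∣ M := fun p hp hle => by
    rw [hMd]
    exact ((Nat.Prime.dvd_factorial hp).2 hle).mul_right _
  have hM2 : 2 ≤ M := Nat.le_of_dvd hM1 (hMp 2 Nat.prime_two (by omega))
  refine ⟨2 * B + M, c / (2 * M), by positivity, fun h h' => ?_⟩
  set I : Finset (Fin (K + L + 1 + 1)) := {Fin.succ 0} with hI
  set J : Finset (Fin (K + L + 1 + 1)) := {0} with hJ
  -- the key inclusion
  have key : ∀ r : ℕ, r < M → ∀ n : ℕ, 1 ≤ n →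
      (c * ((n : ℝ) ^ (1 / ((2 : ℕ) : ℝ)) * singV (fam d M r h h') n) ≤
    (Set.ncard {x : ℕ | 0 < x ∧ x < n ∧ x ^ 2 ≤ n ∧
      (c0 * Real.log I.card ≤
          (2 : ℕ) * ((I.filter (fun k => (val (fam d M r h h' k) x ((n : ℤ) - x)).natAbs.Prime)).card : ℝ) ∧
        1 ≤ (I.filter (fun k => (val (fam d M r h h' k) x ((n : ℤ) - x)).natAbs.Prime)).card) ∧
      (J.Nonempty → c0 * Real.log J.card ≤
          ((J.filter (fun k => (val (fam d M r h h' k) x ((n : ℤ) - x)).natAbs.Prime)).card : ℝ) ∧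
        1 ≤ (J.filter (fun k => (val (fam d M r h h' k) x ((n : ℤ) - x)).natAbs.Prime)).card) ∧
      ∀ k, 1 < |val (fam d M r h h' k) x ((n : ℤ) - x)| ∧
      (∀ p : ℕ, p.Prime → (p : ℤ) ∣ val (fam d M r h h' k) x ((n : ℤ) - x) → n < p ^ B) ∧
      cardFactors (val (fam d M r h h' k) x ((n : ℤ) - x)).natAbs ≤ B * 2} : ℝ)) →
      c / (2 * M) * (Real.sqrt ((M * n + r : ℕ) : ℝ) * sing d h h' (M * n + r)) ≤
        (Set.ncard (Good d (2 * B + M) h h' (M * n + r)) : ℝ) := by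
    intro r hr n hn hle
    set m : ℕ := M * n + r with hm
    have hmn : m < M * (n + 1) := by rw [hm, mul_add]; omega
    have hsub : {x : ℕ | 0 < x ∧ x < n ∧ x ^ 2 ≤ n ∧
      (c0 * Real.log I.card ≤
          (2 : ℕ) * ((I.filter (fun k => (val (fam d M r h h' k) x ((n : ℤ) - x)).natAbs.Prime)).card : ℝ) ∧
        1 ≤ (I.filter (fun k => (val (fam d M r h h' k) x ((n : ℤ) - x)).natAbs.Prime)).card) ∧
      (J.Nonempty → c0 * Real.log J.card ≤
          ((J.filter (fun k => (val (fam d M r h h' k) x ((n : ℤ) - x)).natAbs.Prime)).card : ℝ) ∧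
        1 ≤ (J.filter (fun k => (val (fam d M r h h' k) x ((n : ℤ) - x)).natAbs.Prime)).card) ∧
      ∀ k, 1 < |val (fam d M r h h' k) x ((n : ℤ) - x)| ∧
      (∀ p : ℕ, p.Prime → (p : ℤ) ∣ val (fam d M r h h' k) x ((n : ℤ) - x) → n < p ^ B) ∧
      cardFactors (val (fam d M r h h' k) x ((n : ℤ) - x)).natAbs ≤ B * 2} ⊆
        Good d (2 * B + M) h h' m := by
      rintro x ⟨hx0, hxn, hx2, ⟨_, hI2⟩, hJ1, hall⟩
      have hxm : 2 * (d * x) ^ 2 ≤ m := by
        calc 2 * (d * x) ^ 2 = 2 * d ^ 2 * x ^ 2 := by ring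
          _ ≤ M * n := Nat.mul_le_mul hMdd hx2
          _ ≤ m := by omega
      have hval1 : (val (fam d M r h h' (Fin.succ 0)) x ((n : ℤ) - x)).natAbs = m - 2 * (d * x) ^ 2 := by
        rw [fam_one, ev_qf]
        have h2 : ((m - 2 * (d * x) ^ 2 : ℕ) : ℤ) = (m : ℤ) - 2 * ((d : ℤ) * x) ^ 2 := by
          rw [Nat.cast_sub hxm]
          push_cast
          ring
        rw [← hm, ← h2, Int.natAbs_natCast]
      have hval2 : ∀ i : Fin K, (val (fam d M r h h' (Fin.succ (Fin.succ (Fin.castAdd L i)))) x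
          ((n : ℤ) - x)).natAbs = m - 2 * (d * x) ^ 2 + h i := by
        intro i
        rw [fam_q, ev_qf]
        have h2 : ((m - 2 * (d * x) ^ 2 + h i : ℕ) : ℤ) =
            ((M * n + (r + h i) : ℕ) : ℤ) - 2 * ((d : ℤ) * x) ^ 2 := by
          rw [Nat.cast_add, Nat.cast_sub hxm, hm]
          push_cast
          ring
        rw [← h2, Int.natAbs_natCast]
      have hval3 : ∀ j : Fin L, (val (fam d M r h h' (Fin.succ (Fin.succ (Fin.natAdd K j)))) x
          ((n : ℤ) - x)).natAbs = x + h' j := by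
        intro j
        rw [fam_l, ev_lf]
        have h2 : ((x + h' j : ℕ) : ℤ) = (x : ℤ) + h' j := by push_cast; ring
        rw [← h2, Int.natAbs_natCast]
      have hx : x.Prime := by
        have h1 := (hJ1 ⟨0, by rw [hJ]; simp⟩).2
        rw [Nat.one_le_iff_ne_zero, Finset.card_ne_zero] at h1
        obtain ⟨k, hk⟩ := h1
        rw [Finset.mem_filter, hJ, Finset.mem_singleton] at hk
        obtain ⟨hk1, hk2⟩ := hk
        have h3 : fam d M r h h' 0 = MvPolynomial.X 0 := by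
          unfold fam
          rw [Fin.cons_zero]
        rw [hk1, h3, ev_X, Int.natAbs_natCast] at hk2
        exact hk2
      have hy : (m - 2 * (d * x) ^ 2).Prime := by
        rw [Nat.one_le_iff_ne_zero, Finset.card_ne_zero] at hI2
        obtain ⟨k, hk⟩ := hI2
        rw [Finset.mem_filter, hI, Finset.mem_singleton] at hk
        obtain ⟨hk1, hk2⟩ := hk
        rw [hk1, hval1] at hk2
        exact hk2
      have hbig : ∀ p : ℕ, p.Prime → n < p ^ B → m < p ^ (2 * B + M) := by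
        intro p hp h6
        have h7 : m < M * p ^ B := lt_of_lt_of_le hmn (Nat.mul_le_mul_left _ h6)
        have h9 : M ≤ p ^ M :=
          (Nat.lt_two_pow_self).le.trans (Nat.pow_le_pow_left hp.two_le M)
        calc m < M * p ^ B := h7
          _ ≤ p ^ M * p ^ B := Nat.mul_le_mul_right _ h9
          _ = p ^ (B + M) := by rw [← pow_add]; congr 1; omega
          _ ≤ p ^ (2 * B + M) := Nat.pow_le_pow_right hp.pos (by omega)
      refine ⟨hx, hxm, hy, fun i => ⟨?_, fun p hp hpd => ?_⟩, fun j => ⟨?_, fun p hp hpd => ?_⟩⟩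
      · have h3 := (hall (Fin.succ (Fin.succ (Fin.castAdd L i)))).2.2
        rw [hval2] at h3
        omega
      · refine hbig p hp ((hall (Fin.succ (Fin.succ (Fin.castAdd L i)))).2.1 p hp ?_)
        rw [← Int.dvd_natAbs, hval2]
        exact_mod_cast hpd
      · have h3 := (hall (Fin.succ (Fin.succ (Fin.natAdd K j)))).2.2
        rw [hval3] at h3
        omega
      · refine hbig p hp ((hall (Fin.succ (Fin.succ (Fin.natAdd K j)))).2.1 p hp ?_)
        rw [← Int.dvd_natAbs, hval3]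
        exact_mod_cast hpd
    have hn1 : (1 : ℝ) ≤ n := by exact_mod_cast hn
    have hsq : Real.sqrt ((m : ℕ) : ℝ) ≤ (2 * M) * (n : ℝ) ^ (1 / ((2 : ℕ) : ℝ)) := by
      have h1 : (n : ℝ) ^ (1 / ((2 : ℕ) : ℝ)) = Real.sqrt n := by
        rw [Real.sqrt_eq_rpow]
        norm_num
      rw [h1]
      apply Real.sqrt_le_iff.2
      constructor
      · positivity
      · rw [mul_pow, Real.sq_sqrt (by positivity)]
        have h2 : (m : ℝ) ≤ 2 * M * n := by
          have : m ≤ 2 * M * n := by nlinarith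
          exact_mod_cast this
        have h3 : (1 : ℝ) ≤ 2 * M := by
          have : (1 : ℝ) ≤ M := by exact_mod_cast hM1
          linarith
        have h4 : (0 : ℝ) ≤ 2 * M * n := by positivity
        nlinarith
    have hsing : sing d h h' m ≤ singV (fam d M r h h') n := sing_le d M r hM1 h h' n
    have hsing0 : 0 ≤ sing d h h' m := sing_nonneg d h h' m
    calc c / (2 * M) * (Real.sqrt ((m : ℕ) : ℝ) * sing d h h' m) ≤
          c / (2 * M) * (((2 * M) * (n : ℝ) ^ (1 / ((2 : ℕ) : ℝ))) * singV (fam d M r h h') n) := by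
          apply mul_le_mul_of_nonneg_left _ (by positivity)
          exact mul_le_mul hsq hsing hsing0 (by positivity)
      _ = c * ((n : ℝ) ^ (1 / ((2 : ℕ) : ℝ)) * singV (fam d M r h h') n) := by
          field_simp
      _ ≤ _ := hle
      _ ≤ _ := by
          exact_mod_cast Set.ncard_le_ncard hsub (Good_finite hd1 _ _ _ _)
  obtain ⟨E, hEd⟩ : ∃ E : ℕ → ℕ → Prop, ∀ r n, E r n ↔
      ((∀ p : ℕ, p.Prime → p ≤ 2 * K + L + 3 + d → ∃ x : ℤ, ¬ (p : ℤ) ∣ Q d h h' r x) ∧ ¬ (1 ≤ n ∧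
        c / (2 * M) * (Real.sqrt ((M * n + r : ℕ) : ℝ) * sing d h h' (M * n + r)) ≤
        (Set.ncard (Good d (2 * B + M) h h' (M * n + r)) : ℝ))) := ⟨_, fun r n => Iff.rfl⟩
  have hE : ∀ r : ℕ, r < M → ∀ A : ℕ, ∀ᶠ N : ℕ in Filter.atTop,
      (((Finset.Icc 1 N).filter (fun n => E r n)).card : ℝ) ≤ N / (Real.log N) ^ A := by
    intro r hr A
    by_cases hloc : ∀ p : ℕ, p.Prime → p ≤ 2 * K + L + 3 + d → ∃ x : ℤ, ¬ (p : ℤ) ∣ Q d h h' r x
    · have h1 := H (fam d M r h h') (adm hd1 M r h h' hMp hloc) (deg_fam d M r h h') 2 I J le_rfl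
        ⟨Fin.succ 0, by rw [hI]; simp⟩ (fun _ => (M : ℤ))
        (fun _ => (C (r : ℤ) - C (2 * (d : ℤ) ^ 2) * X ^ 2 : ℤ[X])) (fun _ => 1) (fun _ => 0)
        (by
          intro k hk
          rw [hI, Finset.mem_singleton] at hk
          subst hk
          refine ⟨by exact_mod_cast (by omega : M ≠ 0), natDeg_g hd1 r, ?_⟩
          rw [fam_one]
          rfl)
        (by
          intro k hk l hl hkl
          rw [hI, Finset.mem_singleton] at hk hl
          exact absurd (hk.trans hl.symm) hkl)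
        (by
          intro k hk
          rw [hJ, Finset.mem_singleton] at hk
          subst hk
          refine ⟨by norm_num, ?_⟩
          show (MvPolynomial.X 0 : MvPolynomial (Fin 2) ℤ) = _
          simp)
        (by
          intro k hk l hl hkl
          rw [hJ, Finset.mem_singleton] at hk hl
          exact absurd (hk.trans hl.symm) hkl) A
      filter_upwards [h1] with N hN
      refine le_trans ?_ hN
      apply Nat.cast_le.2
      apply Finset.card_le_card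
      intro n hn
      rw [Finset.mem_filter] at hn
      refine Finset.mem_filter.2 ⟨hn.1, fun hle => ((hEd _ _).1 hn.2).2
        ⟨(Finset.mem_Icc.1 hn.1).1, ?_⟩⟩
      exact key r hr n (Finset.mem_Icc.1 hn.1).1 hle
    · filter_upwards [Filter.eventually_ge_atTop 1] with N hN1
      rw [Finset.filter_false_of_mem (fun n _ hcon => hloc ((hEd _ _).1 hcon).1)]
      rw [Finset.card_empty, Nat.cast_zero]
      have : 0 ≤ Real.log N := Real.log_nonneg (by exact_mod_cast hN1)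
      positivity
  intro A
  filter_upwards [Pool.Agent.Lib.MP_6b8fc7_nt.CS.transfer M hM1 E hE A] with N hN
  refine le_trans ?_ hN
  refine Nat.cast_le.2 (Finset.card_le_card ?_)
  intro n hn
  rw [Finset.mem_filter] at hn ⊢
  refine ⟨hn.1, (hEd _ _).2 ⟨fun p hp hle => ?_, fun hcon => hn.2.2 ?_⟩⟩
  · obtain ⟨x, hx⟩ := hn.2.1 p hp hle
    refine ⟨x, fun hd => hx ((Q_congr_iff d h h' ?_ x).1 hd)⟩
    have h1 : ((n % M : ℕ) : ℤ) - n = - ((M : ℤ) * (n / M : ℕ)) := by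
      have := Nat.div_add_mod n M
      have h2 : ((M * (n / M) + n % M : ℕ) : ℤ) = n := by rw [this]
      push_cast at h2 ⊢
      linarith
    rw [h1]
    exact (dvd_neg.2 ((Int.natCast_dvd_natCast.2 (hMp p hp hle)).mul_right _))
  · have h5 : M * (n / M) + n % M = n := Nat.div_add_mod n M
    rw [h5] at hcon
    exact hcon.2

open Classical in
theorem comb
    (hsv : ∀ k : ℕ, ∃ c : ℝ, 0 < c ∧ ∀ n : ℕ, 2 ≤ n → ∀ w : ℕ → ℕ,
      (∀ p : ℕ, p.Prime → w p ≤ k ∧ w p < p) →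
      c / (Real.log n) ^ k ≤ ∏ p ∈ (Icc 1 n).filter Nat.Prime, (1 - (w p : ℝ) / p)) {d : ℕ} (hd1 : 1 ≤ d) (K L : ℕ)
    (hm : ∃ (B : ℕ) (c : ℝ), 0 < c ∧ ∀ (h : Fin K → ℕ) (h' : Fin L → ℕ) (A : ℕ),
    ∀ᶠ N : ℕ in atTop, (((Icc 1 N).filter (fun n : ℕ => Loc d h h' n ∧
      ¬ (c * (Real.sqrt n * sing d h h' n) ≤ (Set.ncard (Good d B h h' n) : ℝ)))).card : ℝ) ≤
      N / (Real.log N) ^ A) :
    ∃ (B : ℕ) (c : ℝ), 0 < c ∧ ∀ (h : Fin K → ℕ) (h' : Fin L → ℕ),
      (∀ n : ℕ, 2 ≤ n → Loc d h h' n → c / (Real.log n) ^ (2 * K + L + 3) ≤ sing d h h' n) ∧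
      ∀ A : ℕ, ∀ᶠ N : ℕ in atTop, (((Icc 1 N).filter (fun n : ℕ => Loc d h h' n ∧
        ¬ (c * (Real.sqrt n * sing d h h' n) ≤ (Set.ncard (Good d B h h' n) : ℝ)))).card : ℝ) ≤
        N / (Real.log N) ^ A := by
  obtain ⟨B, c, hc, H⟩ := hm
  obtain ⟨c', hc', H'⟩ := sing_lb hsv K L
  refine ⟨B, min c c', lt_min hc hc', fun h h' => ⟨fun n hn hr => ?_, fun A => ?_⟩⟩
  · refine le_trans ?_ (H' d h h' n hn ?_)
    · apply div_le_div_of_nonneg_right (min_le_right _ _)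
      have : 0 ≤ Real.log n := Real.log_nonneg (by exact_mod_cast (show 1 ≤ n by omega))
      positivity
    · intro p hp
      by_cases hle : p ≤ 2 * K + L + 3 + d
      · exact om_lt d h h' n p hp (hr p hp hle)
      · exact om_lt d h h' n p hp (big_ok hd1 h h' n p hp (by omega))
  · filter_upwards [H h h' A] with N hN
    refine le_trans (Nat.cast_le.2 (Finset.card_le_card ?_)) hN
    intro n hn
    rw [Finset.mem_filter] at hn ⊢
    refine ⟨hn.1, hn.2.1, fun hle => hn.2.2 (le_trans ?_ hle)⟩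
    apply mul_le_mul_of_nonneg_right (min_le_left _ _)
    exact mul_nonneg (Real.sqrt_nonneg _) (sing_nonneg d h h' n)

end Pool.Agent.Lib.MP_6b8fc7_nt.CD
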